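import Pool.Agent.Y512.FGC.Exist

/-! The full group C*-algebra of a group whose centre has finite index is weakly central. -/

set_option autoImplicit false
set_option linter.all false

noncomputable section

namespace Pool.Agent.Y512.FGC

open Pool.Agent.H516R3.Alt
open Pool.Agent.Results.MP_4da108_an.AltWeaklyCentral

variable {H : Type} [Group H] {B : Type} [CStarAlgebra B] (w : H →* unitary B)

/-- conjugation -/
def T (h : H) (b : B) : B := (w h : B) * b * (w h⁻¹ : B)

lemma T_mul (h k : H) (b : B) : T w (h * k) b = T w h (T w k b) := by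
  unfold T
  rw [map_mul, mul_inv_rev, map_mul, Submonoid.coe_mul, Submonoid.coe_mul]
  simp only [mul_assoc]

lemma w_inv (h : H) : (w h : B) * (w h⁻¹ : B) = 1 := by
  rw [← Submonoid.coe_mul, ← map_mul, mul_inv_cancel, map_one]; rfl

lemma w_inv' (h : H) : (w h⁻¹ : B) * (w h : B) = 1 := by
  rw [← Submonoid.coe_mul, ← map_mul, inv_mul_cancel, map_one]; rfl

variable {w} (hB : IsFullGroupCStar H B w)
include hB

lemma T_center {z : H} (hz : z ∈ Subgroup.center H) (b : B) : T w z b = b := by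
  have h1 : (w z : B) ∈ Set.center B := by
    refine central_of_comm hB fun x => ?_
    rw [← Submonoid.coe_mul, ← Submonoid.coe_mul, ← map_mul, ← map_mul,
      Subgroup.mem_center_iff.mp hz x]
  unfold T
  rw [← Semigroup.mem_center_iff.mp h1 b, mul_assoc, w_inv, mul_one]

variable [Fintype (H ⧸ Subgroup.center H)]

omit hB in
variable (w) in
/-- the average of the conjugates -/
def cav (b : B) : B :=
  ((Fintype.card (H ⧸ Subgroup.center H) : ℂ)⁻¹) • ∑ q : H ⧸ Subgroup.center H, T w q.out b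

lemma cav_center (b : B) : cav w b ∈ Set.center B := by
  refine central_of_comm hB fun s => ?_
  have h1 : T w s (cav w b) = cav w b := by
    have e1 : T w s (cav w b) = ((Fintype.card (H ⧸ Subgroup.center H) : ℂ)⁻¹) •
        ∑ q : H ⧸ Subgroup.center H, T w s (T w q.out b) := by
      unfold cav T
      rw [mul_smul_comm, smul_mul_assoc, Finset.mul_sum, Finset.sum_mul]
    rw [e1]
    unfold cav
    congr 1
    refine Fintype.sum_equiv (MulAction.toPerm s) _ _ fun q => ?_
    obtain ⟨k, hk⟩ := QuotientGroup.mk_out_eq_mul (Subgroup.center H) (s * q.out)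
    have e2 : ((s * q.out : H) : H ⧸ Subgroup.center H) = s • q := by
      rw [← smul_eq_mul, ← MulAction.Quotient.smul_coe, QuotientGroup.out_eq']
    rw [e2] at hk
    change T w s (T w q.out b) = T w (s • q).out b
    rw [hk, T_mul w (s * q.out) k, T_center hB k.2, T_mul]
  have h2 : (w s : B) * cav w b * (w s⁻¹ : B) * (w s : B) = cav w b * (w s : B) :=
    congrArg (· * (w s : B)) h1
  rw [mul_assoc, w_inv', mul_one] at h2
  exact h2.symm

omit hB in
lemma cav_mem (N : TwoSidedIdeal B) {b : B} (hb : b ∈ N) : cav w b ∈ N := by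
  unfold cav
  refine (subm N).smul_mem _ ((subm N).sum_mem fun q _ => ?_)
  exact N.mul_mem_right _ _ (N.mul_mem_left _ _ hb)

omit hB in
lemma cav_add (x y : B) : cav w (x + y) = cav w x + cav w y := by
  unfold cav T
  rw [← smul_add, ← Finset.sum_add_distrib]
  congr 1
  refine Finset.sum_congr rfl fun q _ => ?_
  rw [mul_add, add_mul]

omit hB in
lemma cav_one : cav w (1 : B) = 1 := by
  unfold cav T
  have h0 : (Fintype.card (H ⧸ Subgroup.center H) : ℂ) ≠ 0 := by
    exact_mod_cast Fintype.card_ne_zero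
  have h1 : ∀ q ∈ (Finset.univ : Finset (H ⧸ Subgroup.center H)),
      (w q.out : B) * 1 * (w (q.out)⁻¹ : B) = 1 := by
    intro q _
    rw [mul_one, w_inv]
  rw [Finset.sum_congr rfl h1, Finset.sum_const, Finset.card_univ, ← Nat.cast_smul_eq_nsmul ℂ,
    smul_smul, inv_mul_cancel₀ h0, one_smul]

omit hB in
lemma comax {N N' : TwoSidedIdeal B} (hN : IsCoatom N) (hN' : IsCoatom N') (hne : N ≠ N') :
    ∃ x ∈ N, ∃ y ∈ N', (1 : B) = x + y := by
  let S : TwoSidedIdeal B := TwoSidedIdeal.mk' {t : B | ∃ x ∈ N, ∃ y ∈ N', t = x + y}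
    ⟨0, N.zero_mem, 0, N'.zero_mem, by simp⟩
    (by
      rintro s t ⟨x, hx, y, hy, rfl⟩ ⟨x', hx', y', hy', rfl⟩
      exact ⟨x + x', N.add_mem hx hx', y + y', N'.add_mem hy hy', by abel⟩)
    (by
      rintro s ⟨x, hx, y, hy, rfl⟩
      exact ⟨-x, N.neg_mem hx, -y, N'.neg_mem hy, by abel⟩)
    (by
      rintro s t ⟨x, hx, y, hy, rfl⟩
      exact ⟨s * x, N.mul_mem_left _ _ hx, s * y, N'.mul_mem_left _ _ hy, by rw [mul_add]⟩)
    (by
      rintro s t ⟨x, hx, y, hy, rfl⟩
      exact ⟨x * t, N.mul_mem_right _ _ hx, y * t, N'.mul_mem_right _ _ hy, by rw [add_mul]⟩)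
  have hS : ∀ t, t ∈ S ↔ ∃ x ∈ N, ∃ y ∈ N', t = x + y := fun t => TwoSidedIdeal.mem_mk' _ _ _ _ _ _ _
  by_contra hcon
  have hne' : S ≠ ⊤ := by
    intro h
    apply hcon
    rw [← hS, h]; trivial
  have h1 : N ≤ S := fun x hx => (hS x).2 ⟨x, hx, 0, N'.zero_mem, by simp⟩
  have h2 : N' ≤ S := fun x hx => (hS x).2 ⟨0, N.zero_mem, x, hx, by simp⟩
  exact hne (((hN.le_iff_eq hne').mp h1).symm.trans ((hN'.le_iff_eq hne').mp h2))

omit [Fintype (H ⧸ Subgroup.center H)] in
theorem weaklyCentral_of_finite (hf : Finite (H ⧸ Subgroup.center H)) : IsWeaklyCentral B := by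
  haveI : Fintype (H ⧸ Subgroup.center H) := Fintype.ofFinite _
  refine ⟨fun N N' hN hN' hNN => ?_, fun M hM hc => one_notMem hM.1 (hc Set.one_mem_center)⟩
  by_contra hne
  obtain ⟨x, hx, y, hy, hxy⟩ := comax hN hN' hne
  have h1 : cav w x ∈ N' := by
    have : cav w x ∈ (N : Set B) ∩ Set.center B := ⟨cav_mem N hx, cav_center hB x⟩
    rw [hNN] at this
    exact this.1
  apply one_notMem hN'.1
  have h2 : (1 : B) = cav w x + cav w y := by rw [← cav_add, ← hxy, cav_one]
  rw [h2]
  exact N'.add_mem h1 (cav_mem N' hy)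

end Pool.Agent.Y512.FGC
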