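import Pool.Agent.Y512.FGC.Main

/-! Existence of the full group C*-algebra of a discrete group. -/

set_option autoImplicit false
set_option linter.all false

noncomputable section

namespace Pool.Agent.Y512.FGC

open Pool.Agent.H516R3.Alt
open MonoidAlgebra
open scoped ENNReal

section generic

variable {G : Type} [Group G] {P : Type} [CStarAlgebra P] (V : G →* unitary P)

/-- the group algebra in the representation `V` -/
def galg : StarSubalgebra ℂ P where
  toSubalgebra := (gext V).range
  star_mem' := by
    rintro _ ⟨x, rfl⟩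
    obtain ⟨y, hy⟩ := exists_adj x
    exact ⟨y, (hy _ V).symm⟩

/-- its closure -/
def GS : StarSubalgebra ℂ P := (galg V).topologicalClosure

instance : IsClosed (GS V : Set P) := StarSubalgebra.isClosed_topologicalClosure _

/-- the closure as a type -/
def GT : Type := GS V

instance : CStarAlgebra (GT V) := by
  exact (inferInstance : CStarAlgebra (GS V))

/-- the inclusion -/
def inclG : GT V →⋆ₐ[ℂ] P := (GS V).subtype

lemma inclG_inj : Function.Injective (inclG V) := Subtype.val_injective

lemma inclG_norm (x : GT V) : ‖inclG V x‖ = ‖x‖ := rfl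

lemma V_mem (g : G) : (V g : P) ∈ GS V := by
  apply StarSubalgebra.le_topologicalClosure
  refine ⟨single g 1, ?_⟩
  change gext V (single g 1) = _
  rw [gext_single, one_smul]

/-- the representation in the closure -/
def uG : G →* unitary (GT V) where
  toFun g := ⟨(⟨(V g : P), V_mem V g⟩ : GS V), Unitary.mem_iff.2
    ⟨inclG_inj V (Unitary.coe_star_mul_self (V g)), inclG_inj V (Unitary.coe_mul_star_self (V g))⟩⟩
  map_one' := by
    apply Subtype.ext
    apply inclG_inj V
    change (V (1 : G) : P) = 1
    rw [map_one]; rfl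
  map_mul' g h := by
    apply Subtype.ext
    apply inclG_inj V
    change (V (g * h) : P) = (V g : P) * V h
    rw [map_mul]; rfl

lemma incl_uG (g : G) : inclG V (uG V g : GT V) = (V g : P) := rfl

lemma incl_gextG (x : MonoidAlgebra ℂ G) : inclG V (gext (uG V) x) = gext V x := by
  induction x using MonoidAlgebra.induction_linear with
  | zero => simp
  | add x y hx hy => rw [map_add, map_add, map_add, hx, hy]
  | single g r => rw [gext_single, gext_single, map_smul, incl_uG]

lemma dense_uG : DenseRange (gext (uG V)) := by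
  intro a
  rw [Metric.mem_closure_iff]
  intro δ hδ
  have ha : (inclG V a) ∈ closure ((galg V : StarSubalgebra ℂ P) : Set P) := by
    rw [← StarSubalgebra.topologicalClosure_coe]
    exact a.2
  obtain ⟨_, ⟨x, rfl⟩, hx⟩ := Metric.mem_closure_iff.mp ha δ hδ
  refine ⟨_, ⟨x, rfl⟩, ?_⟩
  rw [dist_eq_norm, ← inclG_norm, map_sub, incl_gextG, ← dist_eq_norm]
  exact hx

/-- a representation with the largest norm generates the full group C*-algebra -/
theorem full_of_norm (hV : ∀ (B : Type) [CStarAlgebra B] (v : G →* unitary B)
    (x : MonoidAlgebra ℂ G), ‖gext v x‖ ≤ ‖gext V x‖) : IsFullGroupCStar G (GT V) (uG V) where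
  dense := by
    rw [Set.eq_univ_iff_forall]
    intro a
    refine closure_mono ?_ (dense_uG V a)
    rintro _ ⟨x, rfl⟩
    induction x using MonoidAlgebra.induction_linear with
    | zero => rw [map_zero]; exact Submodule.zero_mem _
    | add x y hx hy => rw [map_add]; exact Submodule.add_mem _ hx hy
    | single g r =>
      rw [gext_single]
      exact Submodule.smul_mem _ _ (Submodule.subset_span ⟨g, rfl⟩)
  univ := by
    intro B _ v
    have hn : ∀ x : MonoidAlgebra ℂ G, ‖(gext v).toLinearMap x‖ ≤
        1 * ‖(gext (uG V)).toLinearMap x‖ := by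
      intro x
      rw [one_mul]
      have := hV B v x
      rw [← incl_gextG V, inclG_norm] at this
      exact this
    let φ : GT V →L[ℂ] B :=
      (gext v).toLinearMap.extendOfNorm (gext (uG V)).toLinearMap
    have hφ : ∀ x, φ (gext (uG V) x) = gext v x := by
      intro x
      exact LinearMap.extendOfNorm_eq (f := (gext v).toLinearMap)
        (e := (gext (uG V)).toLinearMap) (dense_uG V) ⟨1, hn⟩ x
    have hmul : ∀ a b, φ (a * b) = φ a * φ b := by
      intro a b
      refine DenseRange.induction_on₂ (p := fun a b => φ (a * b) = φ a * φ b) (dense_uG V) ?_ ?_ a b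
      · exact isClosed_eq (by fun_prop) (by fun_prop)
      · intro x y
        rw [← map_mul, hφ, hφ, hφ, map_mul]
    have hstar : ∀ a, φ (star a) = star (φ a) := by
      intro a
      refine DenseRange.induction_on (p := fun a => φ (star a) = star (φ a)) (dense_uG V) a ?_ ?_
      · exact isClosed_eq (by fun_prop) (by fun_prop)
      · intro x
        obtain ⟨y, hy⟩ := exists_adj x
        rw [hy, hφ, hφ, hy]
    have hone : φ 1 = 1 := by
      have h1 := hφ 1
      rw [map_one (gext (uG V)), map_one (gext v)] at h1
      exact h1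
    have hcom : ∀ r : ℂ, φ (algebraMap ℂ (GT V) r) = algebraMap ℂ B r := by
      intro r
      rw [Algebra.algebraMap_eq_smul_one, Algebra.algebraMap_eq_smul_one, map_smul, hone]
    refine ⟨{ toFun := φ
              map_one' := hone
              map_mul' := hmul
              map_zero' := map_zero φ
              map_add' := map_add φ
              commutes' := hcom
              map_star' := hstar }, ?_⟩
    · intro g
      have := hφ (single g 1)
      rw [gext_single, gext_single, one_smul, one_smul] at this
      exact this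

end generic

section exist

variable (G : Type) [Group G]

/-- a unitary representation in a nonzero C*-algebra -/
structure RepD : Type 1 where
  B : Type
  inst : CStarAlgebra B
  nt : Nontrivial B
  v : G →* unitary B

instance (r : RepD G) : CStarAlgebra r.B := r.inst
instance (r : RepD G) : Nontrivial r.B := r.nt

instance : Nonempty (RepD G) := ⟨⟨ℂ, inferInstance, inferInstance, 1⟩⟩

variable {G}

lemma unitary_norm_le {B : Type} [CStarAlgebra B] (w : unitary B) : ‖(w : B)‖ ≤ 1 := by
  rcases subsingleton_or_nontrivial B with h | h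
  · rw [Subsingleton.elim (w : B) 0, norm_zero]; exact zero_le_one
  · exact (CStarRing.norm_coe_unitary w).le

lemma gext_bdd (x : MonoidAlgebra ℂ G) : ∃ C : ℝ, ∀ (B : Type) [CStarAlgebra B]
    (v : G →* unitary B), ‖gext v x‖ ≤ C := by
  induction x using MonoidAlgebra.induction_linear with
  | zero => exact ⟨0, fun B _ v => by simp⟩
  | add x y hx hy =>
    obtain ⟨C, hC⟩ := hx
    obtain ⟨D, hD⟩ := hy
    refine ⟨C + D, fun B _ v => ?_⟩
    rw [map_add]
    exact (norm_add_le _ _).trans (add_le_add (hC B v) (hD B v))
  | single g r =>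
    refine ⟨‖r‖, fun B _ v => ?_⟩
    rw [gext_single, norm_smul]
    have := unitary_norm_le (v g)
    nlinarith [norm_nonneg r]

lemma exists_near (x : MonoidAlgebra ℂ G) (n : ℕ) : ∃ r : RepD G, ∀ (B : Type) [CStarAlgebra B]
    (v : G →* unitary B), ‖gext v x‖ ≤ ‖gext r.v x‖ + 1 / (n + 1) := by
  obtain ⟨C, hC⟩ := gext_bdd x
  have hbdd : BddAbove (Set.range fun r : RepD G => ‖gext r.v x‖) := by
    refine ⟨C, ?_⟩
    rintro _ ⟨r, rfl⟩
    exact hC r.B r.v
  have hpos : (0 : ℝ) < 1 / (n + 1) := by positivity
  obtain ⟨r, hr⟩ := exists_lt_of_lt_ciSup (f := fun r : RepD G => ‖gext r.v x‖)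
    (show (⨆ r : RepD G, ‖gext r.v x‖) - 1 / (n + 1) < ⨆ r : RepD G, ‖gext r.v x‖ by linarith)
  refine ⟨r, fun B _ v => ?_⟩
  rcases subsingleton_or_nontrivial B with h | h
  · rw [Subsingleton.elim (gext v x) 0, norm_zero]
    have := norm_nonneg (gext r.v x)
    linarith
  · have h1 : ‖gext v x‖ ≤ ⨆ r : RepD G, ‖gext r.v x‖ :=
      le_ciSup hbdd (⟨B, inferInstance, h, v⟩ : RepD G)
    linarith

/-- an almost optimal representation -/
def nearR (i : MonoidAlgebra ℂ G × ℕ) : RepD G := (exists_near i.1 i.2).choose

lemma nearR_spec (i : MonoidAlgebra ℂ G × ℕ) (B : Type) [CStarAlgebra B] (v : G →* unitary B) :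
    ‖gext v i.1‖ ≤ ‖gext (nearR i).v i.1‖ + 1 / (i.2 + 1) := (exists_near i.1 i.2).choose_spec B v

variable (G) in
/-- the product of the C*-algebras -/
abbrev PP : Type := lp (fun i : MonoidAlgebra ℂ G × ℕ => (nearR i).B) ∞

noncomputable instance : CStarAlgebra (PP G) where

/-- the product representation -/
def VV : G →* unitary (PP G) where
  toFun g := ⟨⟨fun i => ((nearR i).v g : (nearR i).B), memℓp_infty ⟨1, by
      rintro _ ⟨i, rfl⟩
      exact unitary_norm_le _⟩⟩, by
    rw [Unitary.mem_iff]
    constructor
    · apply lp.ext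
      funext i
      exact Unitary.coe_star_mul_self ((nearR i).v g)
    · apply lp.ext
      funext i
      exact Unitary.coe_mul_star_self ((nearR i).v g)⟩
  map_one' := by
    apply Subtype.ext
    apply lp.ext
    funext i
    change ((nearR i).v (1 : G) : (nearR i).B) = 1
    rw [map_one]; rfl
  map_mul' g h := by
    apply Subtype.ext
    apply lp.ext
    funext i
    change ((nearR i).v (g * h) : (nearR i).B) = ((nearR i).v g : (nearR i).B) * (nearR i).v h
    rw [map_mul]; rfl

lemma gext_VV (x : MonoidAlgebra ℂ G) (i : MonoidAlgebra ℂ G × ℕ) :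
    (gext VV x : PP G) i = gext (nearR i).v x := by
  induction x using MonoidAlgebra.induction_linear with
  | zero => rw [map_zero, map_zero]; rfl
  | add x y hx hy =>
    rw [map_add, map_add, ← hx, ← hy]; rfl
  | single g r => rw [gext_single, gext_single]; rfl

theorem norm_VV (B : Type) [CStarAlgebra B] (v : G →* unitary B) (x : MonoidAlgebra ℂ G) :
    ‖gext v x‖ ≤ ‖(gext VV x : PP G)‖ := by
  refine le_of_forall_pos_le_add fun ε hε => ?_
  obtain ⟨n, hn⟩ := exists_nat_one_div_lt hε
  have h1 := nearR_spec (x, n) B v
  have h2 : ‖(gext VV x : PP G) (x, n)‖ ≤ ‖(gext VV x : PP G)‖ :=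
    lp.norm_apply_le_norm (by simp) _ _
  rw [gext_VV] at h2
  simp only at h1
  linarith

theorem exists_fullGroup (G : Type) [Group G] : ∃ (A : Type) (_ : CStarAlgebra A)
    (u : G →* unitary A), IsFullGroupCStar G A u :=
  ⟨GT (VV (G := G)), inferInstance, uG _, full_of_norm _ fun B _ v x => norm_VV B v x⟩

end exist

end Pool.Agent.Y512.FGC
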