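import Pool.Agent.Results.MP_4da108_an.AltWeaklyCentral

/-! The full group C*-algebra of the product of a discrete group with the finitary alternating
group. -/

set_option autoImplicit false
set_option linter.all false

noncomputable section

namespace Pool.Agent.Y512.FGC

open Pool.Agent.H516R3.Alt
open Pool.Agent.Results.MP_4da108_an.AltWeaklyCentral

lemma hom_cont {A B : Type} [CStarAlgebra A] [CStarAlgebra B] (f : A →⋆ₐ[ℂ] B) : Continuous f :=
  AddMonoidHomClass.continuous_of_bound f 1
    (by intro x; simpa only [one_mul] using NonUnitalStarAlgHom.norm_apply_le f x)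

/-- a closed subspace containing the group is everything -/
lemma dense_ind {G : Type} [Group G] {A : Type} [CStarAlgebra A] {u : G →* unitary A}
    (hA : IsFullGroupCStar G A u) (S : Submodule ℂ A) (hS : IsClosed (S : Set A))
    (h : ∀ x, (u x : A) ∈ S) (a : A) : a ∈ S := by
  have h1 : (Submodule.span ℂ (Set.range fun g : G => (u g : A)) : Submodule ℂ A) ≤ S := by
    rw [Submodule.span_le]
    rintro _ ⟨g, rfl⟩
    exact h g
  have h2 : closure (Submodule.span ℂ (Set.range fun g : G => (u g : A)) : Set A) ⊆ S :=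
    closure_minimal h1 hS
  rw [hA.dense] at h2
  exact h2 (Set.mem_univ a)

/-- two star homomorphisms which agree on the group agree -/
lemma hom_ext_full {G : Type} [Group G] {A : Type} [CStarAlgebra A] {u : G →* unitary A}
    (hA : IsFullGroupCStar G A u) {B : Type} [CStarAlgebra B] (f g : A →⋆ₐ[ℂ] B)
    (h : ∀ x, f (u x) = g (u x)) (a : A) : f a = g a := by
  let S : Submodule ℂ A :=
    { carrier := {a | f a = g a}
      add_mem' := by
        intro x y hx hy
        simp only [Set.mem_setOf_eq] at hx hy ⊢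
        rw [map_add, map_add, hx, hy]
      zero_mem' := by simp
      smul_mem' := by
        intro c x hx
        simp only [Set.mem_setOf_eq] at hx ⊢
        rw [map_smul, map_smul, hx] }
  exact dense_ind hA S (isClosed_eq (hom_cont f) (hom_cont g)) h a

/-- an element commuting with the group is central -/
lemma central_of_comm {G : Type} [Group G] {A : Type} [CStarAlgebra A] {u : G →* unitary A}
    (hA : IsFullGroupCStar G A u) {z : A} (h : ∀ x, z * (u x : A) = (u x : A) * z) :
    z ∈ Set.center A := by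
  let S : Submodule ℂ A :=
    { carrier := {a | z * a = a * z}
      add_mem' := by
        intro x y hx hy
        simp only [Set.mem_setOf_eq] at hx hy ⊢
        rw [mul_add, add_mul, hx, hy]
      zero_mem' := by simp
      smul_mem' := by
        intro c x hx
        simp only [Set.mem_setOf_eq] at hx ⊢
        rw [mul_smul_comm, smul_mul_assoc, hx] }
  have hS : IsClosed (S : Set A) :=
    isClosed_eq (continuous_const.mul continuous_id) (continuous_id.mul continuous_const)
  rw [Semigroup.mem_center_iff]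
  intro a
  exact (dense_ind hA S hS h a).symm

section prod

variable {H : Type} [Group H] {B : Type} [CStarAlgebra B] {w : H →* unitary B}
  {A : Type} [CStarAlgebra A] {u : H × FAlt →* unitary A}

/-- the restriction to the alternating group -/
abbrev uF (u : H × FAlt →* unitary A) : FAlt →* unitary A := u.comp (MonoidHom.inr H FAlt)

lemma av_comm (n : ℕ) (h : H) :
    av (uF u) n * (u (h, 1) : A) = (u (h, 1) : A) * av (uF u) n := by
  unfold av
  rw [smul_mul_assoc, mul_smul_comm, Finset.sum_mul, Finset.mul_sum]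
  congr 1
  refine Finset.sum_congr rfl fun k _ => ?_
  change (u (1, (k : FAlt)) : A) * (u (h, 1) : A) = (u (h, 1) : A) * (u (1, (k : FAlt)) : A)
  rw [← Submonoid.coe_mul, ← Submonoid.coe_mul, ← map_mul, ← map_mul]
  simp

variable (e : A →⋆ₐ[ℂ] B) (i : B →⋆ₐ[ℂ] A) (he : ∀ x, e (u x) = w x.1)
  (hi : ∀ h, i (w h) = u (h, 1))

include he hi

lemma ev_span2 {a : A} (ha : a ∈ Submodule.span ℂ (Set.range fun g : H × FAlt => (u g : A))) :
    ∃ N, ∀ n, N ≤ n → av (uF u) n * a * av (uF u) n = i (e a) * av (uF u) n := by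
  induction ha using Submodule.span_induction with
  | mem x hx =>
    obtain ⟨⟨h, g⟩, rfl⟩ := hx
    obtain ⟨N, hN⟩ := KA_exists g
    refine ⟨N, fun n hn => ?_⟩
    have h1 : (u (h, g) : A) = (u (h, 1) : A) * (uF u g : A) := by
      change (u (h, g) : A) = (u (h, 1) : A) * (u (1, g) : A)
      rw [← Submonoid.coe_mul, ← map_mul]
      simp
    simp only
    rw [he, hi, h1, ← mul_assoc, av_comm, mul_assoc (u (h, 1) : A), mul_assoc (u (h, 1) : A),
      av_mul_u (uF u) (KA_mono hn hN), av_mul_av]
  | zero => exact ⟨0, fun n _ => by simp⟩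
  | add x y _ _ hx hy =>
    obtain ⟨M, hM⟩ := hx
    obtain ⟨N, hN⟩ := hy
    refine ⟨max M N, fun n hn => ?_⟩
    rw [mul_add, add_mul, hM n (le_trans (le_max_left _ _) hn),
      hN n (le_trans (le_max_right _ _) hn), map_add, map_add, add_mul]
  | smul c x _ hx =>
    obtain ⟨N, hN⟩ := hx
    refine ⟨N, fun n hn => ?_⟩
    rw [mul_smul_comm, smul_mul_assoc, hN n hn, map_smul, map_smul, smul_mul_assoc]

lemma ev_approx2 (hA : IsFullGroupCStar (H × FAlt) A u) (a : A) :
    ∃ n, ‖av (uF u) n * a * av (uF u) n - i (e a) * av (uF u) n‖ < 1 := by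
  have ha : a ∈ closure (Submodule.span ℂ (Set.range fun g : H × FAlt => (u g : A)) : Set A) := by
    rw [hA.dense]; trivial
  rw [Metric.mem_closure_iff] at ha
  obtain ⟨b, hb, hab⟩ := ha (1 / 2) (by norm_num)
  obtain ⟨N, hN⟩ := ev_span2 e i he hi hb
  refine ⟨N, ?_⟩
  have e1 : av (uF u) N * a * av (uF u) N - i (e a) * av (uF u) N =
      av (uF u) N * (a - b) * av (uF u) N - i (e (a - b)) * av (uF u) N := by
    rw [mul_sub, sub_mul, hN N le_rfl, map_sub, map_sub, sub_mul]
    abel
  rw [e1]
  have h1 : ‖a - b‖ < 1 / 2 := by rwa [← dist_eq_norm]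
  have h2 : ‖i (e (a - b))‖ ≤ ‖a - b‖ :=
    (NonUnitalStarAlgHom.norm_apply_le i _).trans (NonUnitalStarAlgHom.norm_apply_le e _)
  have h3 := av_norm_le (uF u) N
  calc ‖av (uF u) N * (a - b) * av (uF u) N - i (e (a - b)) * av (uF u) N‖
      ≤ ‖av (uF u) N * (a - b) * av (uF u) N‖ + ‖i (e (a - b)) * av (uF u) N‖ := norm_sub_le _ _
    _ ≤ ‖a - b‖ + ‖a - b‖ := by
        refine add_le_add ?_ ?_
        · calc ‖av (uF u) N * (a - b) * av (uF u) N‖
                ≤ ‖av (uF u) N * (a - b)‖ * ‖av (uF u) N‖ := norm_mul_le _ _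
            _ ≤ (‖av (uF u) N‖ * ‖a - b‖) * ‖av (uF u) N‖ := by gcongr; exact norm_mul_le _ _
            _ ≤ (1 * ‖a - b‖) * 1 := by gcongr
            _ = ‖a - b‖ := by ring
        · calc ‖i (e (a - b)) * av (uF u) N‖ ≤ ‖i (e (a - b))‖ * ‖av (uF u) N‖ := norm_mul_le _ _
            _ ≤ ‖a - b‖ * 1 := by gcongr
            _ = ‖a - b‖ := mul_one _
    _ < 1 := by linarith

lemma av_mem2 (hA : IsFullGroupCStar (H × FAlt) A u) (J : TwoSidedIdeal A) {a : A} (ha : a ∈ J)
    (h1 : e a = 1) : ∃ n, av (uF u) n ∈ J := by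
  obtain ⟨n, hn⟩ := ev_approx2 e i he hi hA a
  rw [h1, map_one, one_mul] at hn
  refine ⟨n, ?_⟩
  set p := av (uF u) n with hp
  have hpp : p * p = p := av_mul_av (uF u) n
  have hx : IsUnit (1 - (p - p * a * p)) := by
    refine isUnit_one_sub_of_norm_lt_one ?_
    rw [← norm_neg, neg_sub]; exact hn
  obtain ⟨x, hx⟩ := hx
  have hpx : p * (x : A) = p * a * p := by
    rw [hx, mul_sub, mul_one, mul_sub, hpp, ← mul_assoc, ← mul_assoc, hpp]
    abel
  have h2 : p * a * p ∈ J := J.mul_mem_right _ _ (J.mul_mem_left _ _ ha)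
  have h3 : p = p * a * p * ((x⁻¹ : Aˣ) : A) := by
    rw [← hpx, mul_assoc, Units.mul_inv, mul_one]
  rw [h3]
  exact J.mul_mem_right _ _ h2

omit he hi

/-- no average over an alternating group lies in a proper ideal -/
lemma av_notMem (v : FAlt →* unitary A) (J : TwoSidedIdeal A) (hJ : (1 : A) ∉ J) (n : ℕ) :
    av v n ∉ J := by
  intro hn
  obtain ⟨ξ, hξ0, hξ⟩ := exists_KA_inv (quotRep v J)
    ⟨Submodule.Quotient.mk 1, by
      intro h0
      rw [Submodule.Quotient.mk_eq_zero] at h0
      exact hJ h0⟩ n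
  obtain ⟨b, rfl⟩ := Submodule.Quotient.mk_surjective _ ξ
  apply hξ0
  rw [Submodule.Quotient.mk_eq_zero]
  have h1 : ∀ k : KA n, (v (k : FAlt) : A) * b - b ∈ subm J := by
    intro k
    have := hξ k k.2
    rw [quotRep_mk, Submodule.Quotient.eq] at this
    exact this
  have h2 : av v n * b - b ∈ subm J := by
    have e : av v n * b - b = ((Fintype.card (KA n) : ℂ)⁻¹) •
        ∑ k : KA n, ((v (k : FAlt) : A) * b - b) := by
      rw [Finset.sum_sub_distrib, Finset.sum_const, Finset.card_univ, smul_sub,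
        ← Nat.cast_smul_eq_nsmul ℂ, smul_smul, inv_mul_cancel₀ (card_ne n), one_smul]
      congr 1
      unfold av
      rw [smul_mul_assoc, Finset.sum_mul]
    rw [e]
    exact (subm J).smul_mem _ ((subm J).sum_mem fun k _ => h1 k)
  have h3 : av v n * b ∈ subm J := J.mul_mem_right _ _ hn
  have h4 := (subm J).sub_mem h3 h2
  rwa [sub_sub_cancel] at h4

include he hi

/-- a maximal ideal contains the kernel of the projection to the first factor -/
lemma ker_le (hA : IsFullGroupCStar (H × FAlt) A u) (M : TwoSidedIdeal A) (hM : IsCoatom M)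
    {a : A} (ha : e a = 0) : a ∈ M := by
  let T : TwoSidedIdeal A := TwoSidedIdeal.mk' {x : A | ∃ m ∈ M, e x = e m}
    ⟨0, M.zero_mem, rfl⟩
    (by
      rintro x y ⟨m, hm, hx⟩ ⟨n, hn, hy⟩
      exact ⟨m + n, M.add_mem hm hn, by rw [map_add, map_add, hx, hy]⟩)
    (by
      rintro x ⟨m, hm, hx⟩
      exact ⟨-m, M.neg_mem hm, by rw [map_neg, map_neg, hx]⟩)
    (by
      rintro x y ⟨m, hm, hx⟩
      exact ⟨x * m, M.mul_mem_left _ _ hm, by rw [map_mul, map_mul, hx]⟩)
    (by
      rintro x y ⟨m, hm, hx⟩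
      exact ⟨m * y, M.mul_mem_right _ _ hm, by rw [map_mul, map_mul, hx]⟩)
  have hT : ∀ x, x ∈ T ↔ ∃ m ∈ M, e x = e m := fun x => TwoSidedIdeal.mem_mk' _ _ _ _ _ _ _
  have hTne : T ≠ ⊤ := by
    intro h
    have h1 : (1 : A) ∈ T := by rw [h]; trivial
    rw [hT] at h1
    obtain ⟨m, hm, h1⟩ := h1
    rw [map_one] at h1
    obtain ⟨n, hn⟩ := av_mem2 e i he hi hA M hm h1.symm
    exact av_notMem (uF u) M (one_notMem hM.1) n hn
  have hle : M ≤ T := fun x hx => (hT x).2 ⟨x, hx, rfl⟩
  have hTM : M = T := ((hM.le_iff_eq hTne).mp hle).symm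
  rw [hTM, hT]
  exact ⟨0, M.zero_mem, by rw [ha, map_zero]⟩

lemma ei (hB : IsFullGroupCStar H B w) (b : B) : e (i b) = b := by
  have := hom_ext_full hB (e.comp i) (StarAlgHom.id ℂ B) (by
    intro x
    change e (i (w x)) = w x
    rw [hi, he]) b
  exact this

/-- the ideals of `A` and `B` correspond -/
lemma mem_iff (hA : IsFullGroupCStar (H × FAlt) A u) (hB : IsFullGroupCStar H B w)
    (M : TwoSidedIdeal A) (hM : ∀ a, e a = 0 → a ∈ M) (a : A) : a ∈ M ↔ i (e a) ∈ M := by
  have h1 : a - i (e a) ∈ M := hM _ (by rw [map_sub, ei e i he hi hB, sub_self])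
  constructor
  · intro h
    have := M.sub_mem h h1
    rwa [sub_sub_cancel] at this
  · intro h
    have := M.add_mem h1 h
    rwa [sub_add_cancel] at this

lemma coatom_comap_i (hA : IsFullGroupCStar (H × FAlt) A u) (hB : IsFullGroupCStar H B w)
    (M : TwoSidedIdeal A) (hM : IsCoatom M) : IsCoatom (M.comap i) := by
  have hk := mem_iff e i he hi hA hB M (fun a => ker_le e i he hi hA M hM)
  refine ⟨?_, ?_⟩
  · intro h
    have h1 : (1 : B) ∈ M.comap i := by rw [h]; trivial
    rw [TwoSidedIdeal.mem_comap, map_one] at h1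
    exact one_notMem hM.1 h1
  · intro N hN
    have hle : M < N.comap e := by
      refine lt_of_le_of_ne ?_ ?_
      · intro a ha
        rw [TwoSidedIdeal.mem_comap]
        apply hN.le
        rw [TwoSidedIdeal.mem_comap]
        exact (hk a).1 ha
      · intro h
        apply hN.not_ge
        intro b hb
        rw [TwoSidedIdeal.mem_comap, h, TwoSidedIdeal.mem_comap, ei e i he hi hB]
        exact hb
    have h1 := hM.2 _ hle
    apply eq_top_of_one
    have h2 : (1 : A) ∈ N.comap e := by rw [h1]; trivial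
    rwa [TwoSidedIdeal.mem_comap, map_one] at h2

lemma coatom_comap_e (hA : IsFullGroupCStar (H × FAlt) A u) (hB : IsFullGroupCStar H B w)
    (N : TwoSidedIdeal B) (hN : IsCoatom N) : IsCoatom (N.comap e) := by
  refine ⟨?_, ?_⟩
  · intro h
    have h1 : (1 : A) ∈ N.comap e := by rw [h]; trivial
    rw [TwoSidedIdeal.mem_comap, map_one] at h1
    exact one_notMem hN.1 h1
  · intro M hM
    have hkM : ∀ a, e a = 0 → a ∈ M := by
      intro a ha
      apply hM.le
      rw [TwoSidedIdeal.mem_comap, ha]
      exact N.zero_mem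
    have hk := mem_iff e i he hi hA hB M hkM
    have hlt : N < M.comap i := by
      refine lt_of_le_of_ne ?_ ?_
      · intro b hb
        rw [TwoSidedIdeal.mem_comap]
        apply hM.le
        rw [TwoSidedIdeal.mem_comap, ei e i he hi hB]
        exact hb
      · intro h
        apply hM.not_ge
        intro a ha
        rw [TwoSidedIdeal.mem_comap, h, TwoSidedIdeal.mem_comap]
        exact (hk a).1 ha
    have h1 := hN.2 _ hlt
    apply eq_top_of_one
    have h2 : (1 : B) ∈ M.comap i := by rw [h1]; trivial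
    rwa [TwoSidedIdeal.mem_comap, map_one] at h2

lemma i_center (hA : IsFullGroupCStar (H × FAlt) A u) (hB : IsFullGroupCStar H B w) {z : B}
    (hz : z ∈ Set.center B) : i z ∈ Set.center A := by
  refine central_of_comm hA ?_
  rintro ⟨h, g⟩
  have h1 : (u (h, g) : A) = i (w h) * (u (1, g) : A) := by
    rw [hi, ← Submonoid.coe_mul, ← map_mul]
    simp
  have h2 : ∀ b : B, i b * (u (1, g) : A) = (u (1, g) : A) * i b := by
    let S : Submodule ℂ B :=
      { carrier := {b | i b * (u (1, g) : A) = (u (1, g) : A) * i b}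
        add_mem' := by
          intro x y hx hy
          simp only [Set.mem_setOf_eq] at hx hy ⊢
          rw [map_add, mul_add, add_mul, hx, hy]
        zero_mem' := by simp
        smul_mem' := by
          intro c x hx
          simp only [Set.mem_setOf_eq] at hx ⊢
          rw [map_smul, mul_smul_comm, smul_mul_assoc, hx] }
    have hS : IsClosed (S : Set B) :=
      isClosed_eq ((hom_cont i).mul continuous_const) (continuous_const.mul (hom_cont i))
    intro b
    refine dense_ind hB S hS ?_ b
    intro x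
    change i (w x) * (u (1, g) : A) = (u (1, g) : A) * i (w x)
    rw [hi, ← Submonoid.coe_mul, ← Submonoid.coe_mul, ← map_mul, ← map_mul]
    simp
  rw [h1, ← mul_assoc, ← map_mul, (Semigroup.mem_center_iff.mp hz (w h : B)).symm, map_mul,
    mul_assoc, h2, ← mul_assoc]

lemma e_center (hA : IsFullGroupCStar (H × FAlt) A u) (hB : IsFullGroupCStar H B w) {z : A}
    (hz : z ∈ Set.center A) : e z ∈ Set.center B := by
  rw [Semigroup.mem_center_iff]
  intro b
  have := congrArg e (Semigroup.mem_center_iff.mp hz (i b))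
  rw [map_mul, map_mul, ei e i he hi hB] at this
  exact this

theorem weaklyCentral_iff (hA : IsFullGroupCStar (H × FAlt) A u) (hB : IsFullGroupCStar H B w) :
    IsWeaklyCentral A ↔ IsWeaklyCentral B := by
  constructor
  · rintro ⟨h, -⟩
    refine ⟨fun N N' hN hN' hNN => ?_, fun M hM hc => one_notMem hM.1 (hc Set.one_mem_center)⟩
    have h1 := h (N.comap e) (N'.comap e) (coatom_comap_e e i he hi hA hB N hN)
      (coatom_comap_e e i he hi hA hB N' hN') (by
        ext z
        refine and_congr_left fun hz => ?_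
        have h2 := Set.ext_iff.1 hNN (e z)
        have hz' := e_center e i he hi hA hB hz
        simp only [Set.mem_inter_iff, hz', and_true, SetLike.mem_coe] at h2
        simp only [SetLike.mem_coe, TwoSidedIdeal.mem_comap]
        exact h2)
    apply TwoSidedIdeal.ext
    intro b
    have h3 : i b ∈ N.comap e ↔ i b ∈ N'.comap e := by rw [h1]
    rwa [TwoSidedIdeal.mem_comap, TwoSidedIdeal.mem_comap, ei e i he hi hB] at h3
  · rintro ⟨h, -⟩
    refine ⟨fun M M' hM hM' hMM => ?_, fun M hM hc => one_notMem hM.1 (hc Set.one_mem_center)⟩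
    have h1 := h (M.comap i) (M'.comap i) (coatom_comap_i e i he hi hA hB M hM)
      (coatom_comap_i e i he hi hA hB M' hM') (by
        ext z
        refine and_congr_left fun hz => ?_
        have h2 := Set.ext_iff.1 hMM (i z)
        have hz' := i_center e i he hi hA hB hz
        simp only [Set.mem_inter_iff, hz', and_true, SetLike.mem_coe] at h2
        simp only [SetLike.mem_coe, TwoSidedIdeal.mem_comap]
        exact h2)
    apply TwoSidedIdeal.ext
    intro a
    have hk := mem_iff e i he hi hA hB M (fun a => ker_le e i he hi hA M hM) a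
    have hk' := mem_iff e i he hi hA hB M' (fun a => ker_le e i he hi hA M' hM') a
    rw [hk, hk', ← TwoSidedIdeal.mem_comap, h1, TwoSidedIdeal.mem_comap]

end prod

/-- centrality passes to retracts -/
lemma central_quot {A A₀ : Type} [CStarAlgebra A] [CStarAlgebra A₀] (q : A →⋆ₐ[ℂ] A₀)
    (hq : Function.Surjective q) (h : IsCentral A) : IsCentral A₀ := by
  have hprim : ∀ I : Set A₀, IsPrimitiveIdeal I → IsPrimitiveIdeal (q ⁻¹' I) := by
    rintro I ⟨K, i1, i2, i3, π, ⟨h1, h2⟩, rfl⟩
    refine ⟨K, i1, i2, i3, π.comp q, ⟨h1, fun L hL hinv => h2 L hL fun a x hx => ?_⟩, rfl⟩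
    obtain ⟨b, rfl⟩ := hq a
    exact hinv b x hx
  intro I J hI hJ hIJ
  have h1 := h _ _ (hprim I hI) (hprim J hJ) (by
    ext z
    refine and_congr_left fun hz => ?_
    have hz' : q z ∈ Set.center A₀ := by
      rw [Semigroup.mem_center_iff]
      intro b
      obtain ⟨a, rfl⟩ := hq b
      rw [← map_mul, ← map_mul, Semigroup.mem_center_iff.mp hz a]
    have h2 := Set.ext_iff.1 hIJ (q z)
    simp only [Set.mem_inter_iff, hz', and_true] at h2
    exact h2)
  ext b
  obtain ⟨a, rfl⟩ := hq b
  exact Set.ext_iff.1 h1 a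

theorem main {H : Type} [Group H] {B : Type} [CStarAlgebra B] {w : H →* unitary B}
    {A : Type} [CStarAlgebra A] {u : H × FAlt →* unitary A}
    (hA : IsFullGroupCStar (H × FAlt) A u) (hB : IsFullGroupCStar H B w) :
    ¬ IsCentral A ∧ (IsWeaklyCentral A ↔ IsWeaklyCentral B) := by
  constructor
  · intro hc
    have h0 : IsFullGroupCStar FAlt (Red FAlt) uRed :=
      exists_full KA KA_finite (fun _ _ h => KA_mono h) KA_exists
    obtain ⟨q, hq⟩ := hA.univ (Red FAlt) (uRed.comp (MonoidHom.snd H FAlt))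
    obtain ⟨j, hj⟩ := h0.univ A (u.comp (MonoidHom.inr H FAlt))
    have hqj : ∀ a, q (j a) = a := by
      intro a
      exact hom_ext_full h0 (q.comp j) (StarAlgHom.id ℂ _) (by
        intro x
        change q (j (uRed x)) = uRed x
        rw [hj]
        exact hq _) a
    exact notCentral h0 (central_quot q (fun a => ⟨j a, hqj a⟩) hc)
  · obtain ⟨e, he⟩ := hA.univ B (w.comp (MonoidHom.fst H FAlt))
    obtain ⟨i, hi⟩ := hB.univ A (u.comp (MonoidHom.inl H FAlt))
    exact weaklyCentral_iff e i he hi hA hB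

end Pool.Agent.Y512.FGC
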